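import Pool.Agent.Helper23.PL.Defs
import Pool.Agent.Helper43.HH.Energy
import Pool.Agent.Helper43.HH.Groups
import Pool.Agent.Helper43.HH.Unit
import Pool.Agent.Helper43.HH.Leg

/-!
# PL-4: cells and groups of three marks
-/

set_option autoImplicit false

open Set
open Pool.Agent.Helper83.OP Pool.Agent.Helper93.HH Pool.Agent.Helper43.HH

namespace Pool.Agent.Helper25.PL

section

variable {V P Q : Type} [Finite V] {D : HD V P Q} {e0 : Sym2 V} {H : SimpleGraph V}
  {X : Sym2 V → Sym2 V → Prop}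

/-- the tripod with hubs in a subset `U'` of the hubs -/
noncomputable def tri' (T : Leg3 D e0) (hD : D.Ok) (hX : D.Dr H e0 X) {U' : Set V}
    (hU : U' ⊆ D.U) (hT : ∀ k, D.hub (T.p k) ∈ U') : Tri H U' where
  c := T.c
  b := fun k => D.hub (T.p k)
  W := fun k => (T.tri hD hX).W k
  c_U := fun h => (T.tri hD hX).c_U (hU h)
  b_U := hT
  b_inj := (T.tri hD hX).b_inj
  inner := fun k z hz hzU => (T.tri hD hX).inner k z hz (hU hzU)

theorem tri'_supp (T : Leg3 D e0) (hD : D.Ok) (hX : D.Dr H e0 X) {U' : Set V}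
    (hU : U' ⊆ D.U) (hT : ∀ k, D.hub (T.p k) ∈ U') (k : Fin 3) (z : V) :
    z ∈ ((tri' T hD hX hU hT).W k).support ↔
      z ∈ (T.W k).support ∨ z ∈ (D.w (T.p k)).support := by
  unfold tri' Leg3.tri
  simp only [SimpleGraph.Walk.mem_support_append_iff,
    SimpleGraph.Walk.support_mapLe_eq_support, SimpleGraph.Walk.support_transfer]

theorem tri'_len (T : Leg3 D e0) (hD : D.Ok) (hX : D.Dr H e0 X) {U' : Set V}
    (hU : U' ⊆ D.U) (hT : ∀ k, D.hub (T.p k) ∈ U') (k : Fin 3) :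
    ((tri' T hD hX hU hT).W k).length = (T.W k).length + (D.w (T.p k)).length := by
  unfold tri' Leg3.tri
  simp only [SimpleGraph.Walk.length_append, SimpleGraph.Walk.length_map,
    SimpleGraph.Walk.mapLe, SimpleGraph.Walk.length_transfer]

end

/-- the number of vertices and edges of a tripod -/
theorem vs_le {V : Type} [Finite V] {H : SimpleGraph V} {U : Set V} (T : Tri H U) (l : ℕ)
    (hl : ∀ k, (T.W k).length ≤ l) : T.vs.ncard ≤ 3 * (l + 1) := by
  classical
  have h1 : T.vs ⊆ ⋃ k ∈ (Finset.univ : Finset (Fin 3)), {v | v ∈ (T.W k).support} := by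
    rintro v ⟨-, k, hk⟩
    simp only [Set.mem_iUnion]
    exact ⟨k, Finset.mem_univ _, hk⟩
  refine (Set.ncard_le_ncard h1 (Set.toFinite _)).trans ?_
  refine (Finset.set_ncard_biUnion_le _ _).trans ?_
  refine (Finset.sum_le_card_nsmul _ _ (l + 1) fun k _ => ?_).trans ?_
  · have h2 : {v | v ∈ (T.W k).support} = (((T.W k).support.toFinset : Finset V) : Set V) := by
      ext v
      simp
    rw [h2, Set.ncard_coe_finset]
    refine (List.toFinset_card_le _).trans ?_
    rw [SimpleGraph.Walk.length_support]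
    exact Nat.add_le_add_right (hl k) 1
  · rw [Finset.card_univ, Fintype.card_fin, smul_eq_mul]

theorem es_le {V : Type} [Finite V] {H : SimpleGraph V} {U : Set V} (T : Tri H U) (l : ℕ)
    (hl : ∀ k, (T.W k).length ≤ l) : T.es.ncard ≤ 3 * l := by
  classical
  have h1 : T.es ⊆ ⋃ k ∈ (Finset.univ : Finset (Fin 3)), {f | f ∈ (T.W k).edges} := by
    rintro f ⟨k, hk⟩
    simp only [Set.mem_iUnion]
    exact ⟨k, Finset.mem_univ _, hk⟩
  refine (Set.ncard_le_ncard h1 (Set.toFinite _)).trans ?_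
  refine (Finset.set_ncard_biUnion_le _ _).trans ?_
  refine (Finset.sum_le_card_nsmul _ _ l fun k _ => ?_).trans ?_
  · have h2 : {f | f ∈ (T.W k).edges} = (((T.W k).edges.toFinset : Finset (Sym2 V)) : Set (Sym2 V)) := by
      ext v
      simp
    rw [h2, Set.ncard_coe_finset]
    refine (List.toFinset_card_le _).trans ?_
    rw [SimpleGraph.Walk.length_edges]
    exact hl k
  · rw [Finset.card_univ, Fintype.card_fin, smul_eq_mul]

open Classical in
/-- the energy lemma with a common bound for the load of the vertices -/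
theorem el_load {V : Type} [Fintype V] {H : SimpleGraph V} {U : Set V}
    (X : Sym2 V → Sym2 V → Prop) (hs : ∀ f f', X f f' → X f' f)
    (h1 : ∀ f ∈ H.edgeSet, {f' | f' ∈ H.edgeSet ∧ X f f'}.ncard ≤ 1)
    (hP : PlanarLike H X) {J : Type} [Fintype J] (T : J → Tri H U) (l m : ℕ)
    (hl : ∀ j k, ((T j).W k).length ≤ l)
    (hm : ∀ v, {j | v ∈ (T j).vs}.ncard ≤ m) :
    Fintype.card J ≤ 132 * ((6 * l + 3) * m) * U.ncard := by
  have hV : ∀ v, phiV Finset.univ T (fun _ => 1) v ≤ m := by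
    intro v
    unfold phiV
    rw [Finset.sum_const, nsmul_eq_mul, mul_one]
    have h2 := hm v
    rw [← Set.ncard_coe_finset]
    rw [show ((Finset.univ.filter fun j => v ∈ (T j).vs : Finset J) : Set J) =
      {j | v ∈ (T j).vs} by ext j; simp]
    exact_mod_cast h2
  have hE : ∀ j, ∀ f ∈ (T j).es, phiE Finset.univ T (fun _ => 1) f ≤ m := by
    intro j f hf
    have h3 : ∃ v ∈ f, v ∉ U := by
      obtain ⟨k, hk⟩ := hf
      induction f using Sym2.ind with
      | _ u v =>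
        by_contra hno
        push Not at hno
        have h4 := (T j).inner k u (SimpleGraph.Walk.fst_mem_support_of_mem_edges _ hk)
          (hno u (Sym2.mem_mk_left _ _))
        have h5 := (T j).inner k v (SimpleGraph.Walk.snd_mem_support_of_mem_edges _ hk)
          (hno v (Sym2.mem_mk_right _ _))
        have h6 := SimpleGraph.Walk.adj_of_mem_edges _ hk
        rw [h4, h5] at h6
        exact h6.ne rfl
    obtain ⟨v, hv, hvU⟩ := h3
    refine le_trans ?_ (hV v)
    unfold phiE phiV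
    refine Finset.sum_le_sum_of_subset_of_nonneg ?_ (fun _ _ _ => zero_le_one)
    intro i hi
    rw [Finset.mem_filter] at hi ⊢
    refine ⟨hi.1, hvU, ?_⟩
    obtain ⟨k, hk⟩ := hi.2
    exact ⟨k, SimpleGraph.Walk.mem_support_of_mem_edges hk hv⟩
  have hb : ∀ j ∈ (Finset.univ : Finset J), ∑ v ∈ (T j).vs.toFinset, phiV Finset.univ T (fun _ => 1) v +
      ∑ f ∈ (T j).es.toFinset, phiE Finset.univ T (fun _ => 1) f ≤ (((6 * l + 3) * m : ℕ) : ℝ) := by
    intro j _
    have e1 : ∑ v ∈ (T j).vs.toFinset, phiV Finset.univ T (fun _ => 1) v ≤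
        ((T j).vs.ncard : ℝ) * m := by
      refine (Finset.sum_le_card_nsmul _ _ (m : ℝ) fun v _ => hV v).trans ?_
      rw [nsmul_eq_mul, ← Set.ncard_eq_toFinset_card']
    have e2 : ∑ f ∈ (T j).es.toFinset, phiE Finset.univ T (fun _ => 1) f ≤
        ((T j).es.ncard : ℝ) * m := by
      refine (Finset.sum_le_card_nsmul _ _ (m : ℝ) fun f hf => hE j f (Set.mem_toFinset.1 hf)).trans ?_
      rw [nsmul_eq_mul, ← Set.ncard_eq_toFinset_card']
    have e3 : ((T j).vs.ncard : ℝ) ≤ 3 * (l + 1) := by exact_mod_cast vs_le (T j) l (hl j)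
    have e4 : ((T j).es.ncard : ℝ) ≤ 3 * l := by exact_mod_cast es_le (T j) l (hl j)
    have hm0 : (0 : ℝ) ≤ m := Nat.cast_nonneg _
    have e5 := mul_le_mul_of_nonneg_right e3 hm0
    have e6 := mul_le_mul_of_nonneg_right e4 hm0
    push_cast
    nlinarith
  have hfin := el_uniform X hs h1 hP Finset.univ T (fun _ => 1) (fun _ _ => zero_le_one)
    (((6 * l + 3) * m : ℕ) : ℝ) (Nat.cast_nonneg _) hb
  rw [Finset.sum_const, nsmul_eq_mul, mul_one, Finset.card_univ] at hfin
  have h7 : ((Fintype.card J : ℕ) : ℝ) ≤ ((132 * ((6 * l + 3) * m) * U.ncard : ℕ) : ℝ) := by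
    push_cast at hfin ⊢
    nlinarith
  exact_mod_cast h7

/-- **PL-4 (CG).** Cells and groups of three marks. `B`: marks (pins), `C`: centres, `q`: partners. -/
theorem CG : ∃ A : ℕ, ∀ (V P Q : Type) [Finite V] [Finite P] [Finite Q] (D : HD V P Q)
    (H : SimpleGraph V) (e0 : Sym2 V) (X : Sym2 V → Sym2 V → Prop), D.Ok → D.Dr H e0 X →
    ∀ (U' : Set V) (R R' lm : ℕ) (B C : Set P) (q : P → P), U' ⊆ D.U → C ⊆ B → R' ≤ R →
    (∀ p ∈ B, ∃ c ∈ C, Nr D.N R (D.x p) (D.x c)) →
    (∀ p ∈ B, D.hub p ∈ U' ∧ D.hub (q p) ∈ U' ∧ e0 ∉ (D.w p).edges ∧ e0 ∉ (D.w (q p)).edges ∧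
      (D.w p).length ≤ R ∧ (D.w (q p)).length ≤ R ∧ Nr D.N R' (D.x p) (D.x (q p))) →
    (∀ v, {p | p ∈ B ∧ Nr D.N R' v (D.x p)}.ncard ≤ lm) →
    (∀ p ∈ B, ∀ p' ∈ B, ∀ p'' ∈ B, p ≠ p' → p ≠ p'' → p' ≠ p'' → Nr D.N (2 * R) (D.x p) (D.x p') →
      Nr D.N (2 * R) (D.x p) (D.x p'') → Nr D.N (2 * R) (D.x p') (D.x p'') →
      3 ≤ ({D.hub p, D.hub (q p), D.hub p', D.hub (q p'), D.hub p'', D.hub (q p'')} : Set V).ncard) →
    B.ncard ≤ A * (R + 1) * (D.Kh * D.r + lm) * U'.ncard + 2 * C.ncard := by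
  classical
  refine ⟨100000, ?_⟩
  intro V P Q _ _ _ D H e0 X hD hX U' R R' lm B C q hU hCB hR hC hp hl h3
  have := Fintype.ofFinite V
  have := Fintype.ofFinite P
  let Y : Type := {p // p ∈ B}
  obtain ⟨par, dep, hadj, hpar, hroot⟩ := exists_forest D.N (D.x '' C)
  have hdep : ∀ p ∈ B, dep (D.x p) ≤ R ∧ par^[dep (D.x p)] (D.x p) ∈ D.x '' C := by
    intro p hpB
    obtain ⟨c, hc, h⟩ := hC p hpB
    exact hroot _ _ _ ⟨c, hc, rfl⟩ h
  obtain ⟨J, instJ, m, c, k, hinj, hk, hload, hleft⟩ :=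
    groups par dep hpar (fun y : Y => D.x y.1)
  have hdw : ∀ j a, ∃ p : D.N.Walk (c j) (D.x (m j a).1), p.length = k j a ∧
      ∀ z ∈ p.support, ∃ s ≤ k j a, z = par^[s] (D.x (m j a).1) := by
    intro j a
    obtain ⟨p, hp1, hp2⟩ := up_walk hadj hpar (k j a) _ _ (hk j a).1 (hk j a).2
    refine ⟨p, hp1, fun z hz => ?_⟩
    rw [SimpleGraph.Walk.mem_support_iff_exists_mem_edges] at hz
    rcases hz with rfl | ⟨f, hf, hz⟩
    · exact ⟨0, Nat.zero_le _, rfl⟩
    · obtain ⟨s, hs, rfl⟩ := hp2 f hf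
      rw [Sym2.mem_iff] at hz
      rcases hz with rfl | rfl
      · exact ⟨s, hs.le, rfl⟩
      · exact ⟨s + 1, hs, rfl⟩
  have hkR : ∀ j a, k j a ≤ R := fun j a => (hk j a).1.trans (hdep _ (m j a).2).1
  have hleg : ∀ j, ∃ T : Leg3 D e0, (∀ κ, D.hub (T.p κ) ∈ U') ∧
      (∀ κ, (T.W κ).length ≤ 2 * R ∧ (D.w (T.p κ)).length ≤ R) ∧
      ∀ κ, ∃ a, (T.p κ = (m j a).1 ∨ T.p κ = q (m j a).1) ∧
        ∀ z ∈ (T.W κ).support, (∃ s ≤ k j a, z = par^[s] (D.x (m j a).1)) ∨
          Nr D.N R' z (D.x (m j a).1) := by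
    intro j
    have hne : ∀ a a', a ≠ a' → (m j a).1 ≠ (m j a').1 := fun a a' h h' =>
      h (hinj j a j a' (Subtype.ext h')).2
    have hnr : ∀ a a', Nr D.N (2 * R) (D.x (m j a).1) (D.x (m j a').1) := by
      intro a a'
      obtain ⟨p, hp1, -⟩ := hdw j a
      obtain ⟨p', hp1', -⟩ := hdw j a'
      have e1 := hkR j a
      have e2 := hkR j a'
      exact ((Nr.of_walk p).symm.trans (Nr.of_walk p')).mono (by omega)
    have h6 := h3 _ (m j 0).2 _ (m j 1).2 _ (m j 2).2 (hne _ _ (by decide))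
      (hne _ _ (by decide)) (hne _ _ (by decide)) (hnr _ _) (hnr _ _) (hnr _ _)
    obtain ⟨a, b, d, ha, hb, hd, hab, had, hbd⟩ := (Set.two_lt_ncard_iff (Set.toFinite _)).1 h6
    have hmem : ∀ v ∈ ({D.hub (m j 0).1, D.hub (q (m j 0).1), D.hub (m j 1).1,
        D.hub (q (m j 1).1), D.hub (m j 2).1, D.hub (q (m j 2).1)} : Set V),
        ∃ (i : Fin 3) (t : P), (t = (m j i).1 ∨ t = q (m j i).1) ∧ D.hub t = v := by
      intro v hv
      simp only [Set.mem_insert_iff, Set.mem_singleton_iff] at hv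
      rcases hv with h | h | h | h | h | h
      · exact ⟨0, _, Or.inl rfl, h.symm⟩
      · exact ⟨0, _, Or.inr rfl, h.symm⟩
      · exact ⟨1, _, Or.inl rfl, h.symm⟩
      · exact ⟨1, _, Or.inr rfl, h.symm⟩
      · exact ⟨2, _, Or.inl rfl, h.symm⟩
      · exact ⟨2, _, Or.inr rfl, h.symm⟩
    have hf : ∀ κ : Fin 3, ∃ (i : Fin 3) (t : P), (t = (m j i).1 ∨ t = q (m j i).1) ∧
        D.hub t = (![a, b, d] : Fin 3 → V) κ := by
      intro κ
      fin_cases κ
      · exact hmem a ha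
      · exact hmem b hb
      · exact hmem d hd
    choose i t ht1 ht2 using hf
    have hW : ∀ κ, ∃ W : D.N.Walk (c j) (D.x (t κ)),
        W.length ≤ 2 * R ∧ ∀ z ∈ W.support, (∃ s ≤ k j (i κ), z = par^[s] (D.x (m j (i κ)).1)) ∨
          Nr D.N R' z (D.x (m j (i κ)).1) := by
      intro κ
      obtain ⟨p, hp1, hp2⟩ := hdw j (i κ)
      have e1 := hkR j (i κ)
      rcases ht1 κ with h | h
      · rw [h]
        exact ⟨p, by omega, fun z hz => Or.inl (hp2 z hz)⟩
      · rw [h]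
        obtain ⟨p', hp'⟩ := (hp _ (m j (i κ)).2).2.2.2.2.2.2
        refine ⟨p.append p', ?_, ?_⟩
        · rw [SimpleGraph.Walk.length_append]
          omega
        · intro z hz
          rw [SimpleGraph.Walk.mem_support_append_iff] at hz
          rcases hz with hz | hz
          · exact Or.inl (hp2 z hz)
          · exact Or.inr ((Nr.of_mem hz).mono hp').symm
    choose W hW1 hW2 using hW
    have hpt : ∀ κ, D.hub (t κ) ∈ U' ∧ e0 ∉ (D.w (t κ)).edges ∧ (D.w (t κ)).length ≤ R := by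
      intro κ
      have h7 := hp _ (m j (i κ)).2
      rcases ht1 κ with h | h
      · rw [h]
        exact ⟨h7.1, h7.2.2.1, h7.2.2.2.2.1⟩
      · rw [h]
        exact ⟨h7.2.1, h7.2.2.2.1, h7.2.2.2.2.2.1⟩
    refine ⟨{ c := c j, p := t, W := W, inj := ?_, e := fun κ => (hpt κ).2.1 },
      fun κ => (hpt κ).1, fun κ => ⟨hW1 κ, (hpt κ).2.2⟩, fun κ => ⟨i κ, ht1 κ, hW2 κ⟩⟩
    intro κ κ' hκ h
    rw [ht2, ht2] at h
    fin_cases κ <;> fin_cases κ' <;> simp at hκ h <;> tauto
  choose T hTU hTl hTm using hleg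
  -- the load
  have hcnt : ∀ (S : Set J) (S' : Set P), (∀ j ∈ S, ∃ i, (m j i).1 ∈ S') →
      S.ncard ≤ S'.ncard := by
    intro S S' h
    have : ∀ j, ∃ i, j ∈ S → (m j i).1 ∈ S' := by
      intro j
      by_cases hj : j ∈ S
      · obtain ⟨i, hi⟩ := h j hj
        exact ⟨i, fun _ => hi⟩
      · exact ⟨0, fun h => absurd h hj⟩
    choose i hi using this
    refine Set.ncard_le_ncard_of_injOn (fun j => (m j (i j)).1) (fun j hj => hi j hj) ?_
      (Set.toFinite _)
    intro j _ j' _ h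
    exact (hinj _ _ _ _ (Subtype.ext h)).1
  have hldv : ∀ v, {j | v ∈ (tri' (T j) hD hX hU (hTU j)).vs}.ncard ≤
      2 * (D.Kh * D.r) + 2 * lm + 3 := by
    intro v
    by_cases hvU : v ∈ D.U
    · have h0 : {j | v ∈ (tri' (T j) hD hX hU (hTU j)).vs} = ∅ := by
        rw [Set.eq_empty_iff_forall_notMem]
        rintro j ⟨h1, κ, h2⟩
        have h4 := ((T j).tri hD hX).inner κ v h2 hvU
        exact h1 (h4 ▸ hTU j κ)
      rw [h0, Set.ncard_empty]
      exact Nat.zero_le _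
    set L : V → Set J := fun u => Prod.fst ''
      {a : J × Fin 3 | ∃ s < k a.1 a.2, par^[s] (D.x (m a.1 a.2).1) = u} with hL
    have hLc : ∀ u, (L u).ncard ≤ 2 := fun u =>
      (Set.ncard_image_le (Set.toFinite _)).trans (hload u)
    set S2 : Set J := ⋃ u ∈ (Set.toFinite (D.N.neighborSet v)).toFinset, L u with hS2
    have hS2c : S2.ncard ≤ 2 * (D.Kh * D.r) := by
      refine (Finset.set_ncard_biUnion_le _ _).trans ?_
      refine (Finset.sum_le_card_nsmul _ _ 2 fun u _ => hLc u).trans ?_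
      rw [smul_eq_mul, ← Set.ncard_eq_toFinset_card _ (Set.toFinite _)]
      have h5 := hD.dg_le v hvU
      have h6 : (D.N.neighborSet v).ncard ≤ D.dg v := by
        unfold HD.dg deg
        omega
      omega
    set S3 : Set J := {j | ∃ i, Nr D.N R' v (D.x (m j i).1)} with hS3
    have hS3c : S3.ncard ≤ lm := by
      refine (hcnt S3 {p | p ∈ B ∧ Nr D.N R' v (D.x p)} ?_).trans (hl v)
      rintro j ⟨i, hi⟩
      exact ⟨i, (m j i).2, hi⟩
    set S4 : Set J := {j | ∃ i, v ∈ (D.w (m j i).1).support ∧ v ≠ D.x (m j i).1 ∧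
      v ≠ D.hub (m j i).1} with hS4
    have hS4c : S4.ncard ≤ 1 := by
      refine (hcnt S4 {p | v ∈ (D.w p).support ∧ v ≠ D.x p ∧ v ≠ D.hub p} ?_).trans ?_
      · rintro j ⟨i, hi⟩
        exact ⟨i, hi⟩
      · rw [Set.ncard_le_one (Set.toFinite _)]
        rintro p ⟨h1, h2, h4⟩ p' ⟨h1', -, -⟩
        exact hD.w_disj p p' v h1 h1' h2 h4
    set S5 : Set J := {j | ∃ i, v ∈ (D.w (q (m j i).1)).support ∧ v ≠ D.x (q (m j i).1) ∧
      v ≠ D.hub (q (m j i).1)} with hS5
    have hS5c : S5.ncard ≤ lm := by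
      rcases S5.eq_empty_or_nonempty with h0 | ⟨j0, i0, h1, h2, h4⟩
      · rw [h0, Set.ncard_empty]
        exact Nat.zero_le _
      · refine (hcnt S5 {p | p ∈ B ∧ Nr D.N R' (D.x (q (m j0 i0).1)) (D.x p)} ?_).trans (hl _)
        rintro j ⟨i, h1', -, -⟩
        refine ⟨i, (m j i).2, ?_⟩
        rw [hD.w_disj _ _ v h1 h1' h2 h4]
        exact (hp _ (m j i).2).2.2.2.2.2.2.symm
    have hsub : {j | v ∈ (tri' (T j) hD hX hU (hTU j)).vs} ⊆ L v ∪ S2 ∪ S3 ∪ S4 ∪ S5 := by
      rintro j ⟨-, κ, hκ⟩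
      rw [tri'_supp] at hκ
      obtain ⟨a, ha1, ha2⟩ := hTm j κ
      have hN : ∀ z ∈ ((T j).W κ).support, z = v → j ∈ L v ∪ S2 ∪ S3 ∪ S4 ∪ S5 := by
        rintro z hz rfl
        rcases ha2 z hz with ⟨s, hs, h⟩ | h
        · rcases hs.lt_or_eq with hs | rfl
          · exact Or.inl (Or.inl (Or.inl (Or.inl ⟨(j, a), ⟨s, hs, h.symm⟩, rfl⟩)))
          · by_cases h0 : k j a = 0
            · rw [h0] at h
              have h' : z = D.x (m j a).1 := h
              refine Or.inl (Or.inl (Or.inr ⟨a, ?_⟩))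
              rw [← h']
              exact Nr.refl _ _ _
            · refine Or.inl (Or.inl (Or.inl (Or.inr ?_)))
              have h5 := iter_dep hpar (D.x (m j a).1) (k j a - 1) (by
                have := (hk j a).1
                omega)
              have h6 : k j a ≤ dep (D.x (m j a).1) := (hk j a).1
              have h7 := hadj (par^[k j a - 1] (D.x (m j a).1)) (by omega)
              have h8 : par (par^[k j a - 1] (D.x (m j a).1)) = z := by
                rw [h, ← Function.iterate_succ_apply' par]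
                congr 1
                omega
              rw [h8] at h7
              simp only [hS2, Set.mem_iUnion]
              refine ⟨_, (Set.Finite.mem_toFinset _).2 h7.symm, (j, a), ⟨k j a - 1, ?_, rfl⟩, rfl⟩
              show k j a - 1 < k j a
              omega
        · exact Or.inl (Or.inl (Or.inr ⟨a, h⟩))
      rcases hκ with hκ | hκ
      · exact hN v hκ rfl
      · by_cases hx : v = D.x ((T j).p κ)
        · refine hN v ?_ rfl
          rw [hx]
          exact SimpleGraph.Walk.end_mem_support _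
        · have hh : v ≠ D.hub ((T j).p κ) := fun h => hvU (h ▸ hD.hub_U _)
          rcases ha1 with h | h
          · rw [h] at hκ hx hh
            exact Or.inl (Or.inr ⟨a, hκ, hx, hh⟩)
          · rw [h] at hκ hx hh
            exact Or.inr ⟨a, hκ, hx, hh⟩
    have hc := Set.ncard_le_ncard hsub (Set.toFinite _)
    have c1 := Set.ncard_union_le (L v ∪ S2 ∪ S3 ∪ S4) S5
    have c2 := Set.ncard_union_le (L v ∪ S2 ∪ S3) S4
    have c3 := Set.ncard_union_le (L v ∪ S2) S3
    have c4 := Set.ncard_union_le (L v) S2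
    have c5 := hLc v
    omega
  have hJ : Fintype.card J ≤ 132 * ((6 * (3 * R) + 3) * (2 * (D.Kh * D.r) + 2 * lm + 3)) *
      U'.ncard := by
    refine el_load X hX.sym hX.one hX.pl (fun j => tri' (T j) hD hX hU (hTU j)) (3 * R) _ ?_ hldv
    intro j κ
    rw [tri'_len]
    have := hTl j κ
    omega
  -- count of the marks
  have hlm : 0 < Fintype.card J → 1 ≤ lm := by
    intro h0
    obtain ⟨j⟩ := Fintype.card_pos_iff.1 h0
    refine le_trans ?_ (hl (D.x (m j 0).1))
    exact (Set.ncard_pos (Set.toFinite _)).2 ⟨(m j 0).1, (m j 0).2, Nr.refl _ _ _⟩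
  have hY : B.ncard = (Set.univ : Set Y).ncard := by
    rw [Set.ncard_univ]
    rfl
  set G : Set Y := Set.range fun a : J × Fin 3 => m a.1 a.2 with hG
  have hGc : G.ncard ≤ 3 * Fintype.card J := by
    rw [hG, ← Set.image_univ]
    refine (Set.ncard_image_le (Set.toFinite _)).trans ?_
    rw [Set.ncard_univ, Nat.card_eq_fintype_card, Fintype.card_prod, Fintype.card_fin]
    omega
  set Rt : Set V := D.x '' C with hRt
  have hRc : Rt.ncard ≤ C.ncard := Set.ncard_image_le (Set.toFinite _)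
  have hcov : (Set.univ : Set Y) ⊆ G ∪ ⋃ t ∈ (Set.toFinite Rt).toFinset,
      {y : Y | par^[dep (D.x y.1)] (D.x y.1) = t ∧ ∀ j i, m j i ≠ y} := by
    intro y _
    by_cases hy : ∃ j i, m j i = y
    · obtain ⟨j, a, h⟩ := hy
      exact Or.inl ⟨(j, a), h⟩
    · right
      push Not at hy
      simp only [Set.mem_iUnion]
      exact ⟨_, (Set.Finite.mem_toFinset _).2 (hdep _ y.2).2, rfl, hy⟩
  have hle := (Set.ncard_le_ncard hcov (Set.toFinite _)).trans (Set.ncard_union_le _ _)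
  have hle2 := (Finset.set_ncard_biUnion_le (Set.toFinite Rt).toFinset
    (fun t => {y : Y | par^[dep (D.x y.1)] (D.x y.1) = t ∧ ∀ j i, m j i ≠ y})).trans
    (Finset.sum_le_card_nsmul _ _ 2 (fun t _ => hleft t))
  rw [smul_eq_mul, ← Set.ncard_eq_toFinset_card _ (Set.toFinite Rt)] at hle2
  have hB : B.ncard ≤ 3 * Fintype.card J + 2 * C.ncard := by
    rw [hY]
    omega
  refine hB.trans (Nat.add_le_add_right ?_ _)
  rcases Nat.eq_zero_or_pos (Fintype.card J) with h0 | h0
  · rw [h0]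
    exact Nat.zero_le _
  · have h1 := hlm h0
    calc 3 * Fintype.card J ≤ 3 * (132 * ((6 * (3 * R) + 3) * (2 * (D.Kh * D.r) + 2 * lm + 3)) *
          U'.ncard) := Nat.mul_le_mul_left _ hJ
      _ ≤ 3 * (132 * ((18 * (R + 1)) * (5 * (D.Kh * D.r + lm))) * U'.ncard) := by
          gcongr
          · omega
          · omega
      _ = 35640 * ((R + 1) * (D.Kh * D.r + lm) * U'.ncard) := by ring
      _ ≤ 100000 * ((R + 1) * (D.Kh * D.r + lm) * U'.ncard) := Nat.mul_le_mul_right _ (by norm_num)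
      _ = _ := by ring

end Pool.Agent.Helper25.PL
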